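import Pool.Agent.H913.PT.Ratio

set_option autoImplicit false

/-! From windows of a fixed length to windows of the length `(log x) ^ s` at `x`: large parameters. -/

namespace Pool.Agent.H913.PT
open Finset Filter

lemma exists_delta (ε : ℝ) (hε : 0 < ε) (hε1 : ε ≤ 1 / 4) (S : ℕ) : ∃ δ : ℝ, 0 < δ ∧ δ ≤ 1 / 4 ∧
    (1 + δ) ^ (S + 1) ≤ (1 + ε) * (1 - δ) ^ S ∧ (1 - ε) * (1 + δ) ^ S ≤ (1 - δ) ^ (S + 1) := by
  obtain ⟨δ, hδ⟩ : ∃ δ : ℝ, δ = ε / (2 * (2 * S + 1)) := ⟨_, rfl⟩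
  have hS : (0 : ℝ) ≤ S := Nat.cast_nonneg _
  have hδ0 : 0 < δ := by rw [hδ]; positivity
  have hδS : (2 * (S : ℝ) + 1) * δ = ε / 2 := by rw [hδ]; field_simp
  have hδ1 : δ ≤ 1 / 4 := by nlinarith
  have hB : 1 - ε / 2 ≤ (1 - δ) ^ (2 * S + 1) := by
    have := one_add_mul_le_pow (a := -δ) (by linarith) (2 * S + 1)
    push_cast at this
    have e : (1 : ℝ) + -δ = 1 - δ := by ring
    rw [e] at this
    nlinarith
  have hP : ∀ m : ℕ, (1 + δ) ^ m * (1 - δ) ^ m ≤ 1 := by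
    intro m
    rw [← mul_pow]
    apply pow_le_one₀
    · exact mul_nonneg (by linarith) (by linarith)
    · nlinarith
  have hZ : 0 < (1 - δ) ^ (S + 1) := pow_pos (by linarith) _
  have hW : 0 < (1 - δ) ^ S := pow_pos (by linarith) _
  refine ⟨δ, hδ0, hδ1, ?_, ?_⟩
  · apply le_of_mul_le_mul_right _ hZ
    have e1 : (1 + ε) * (1 - δ) ^ S * (1 - δ) ^ (S + 1) = (1 + ε) * (1 - δ) ^ (2 * S + 1) := by
      rw [mul_assoc, ← pow_add]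
      congr 2
      ring
    rw [e1]
    have e2 : (1 + ε) * (1 - ε / 2) ≤ (1 + ε) * (1 - δ) ^ (2 * S + 1) := mul_le_mul_of_nonneg_left hB (by linarith)
    have e3 : 1 ≤ (1 + ε) * (1 - ε / 2) := by nlinarith
    exact (hP (S + 1)).trans (e3.trans e2)
  · apply le_of_mul_le_mul_right _ hW
    have e1 : (1 - δ) ^ (S + 1) * (1 - δ) ^ S = (1 - δ) ^ (2 * S + 1) := by
      rw [← pow_add]
      congr 1
      ring
    rw [e1, mul_assoc]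
    have e2 : (1 - ε) * ((1 + δ) ^ S * (1 - δ) ^ S) ≤ (1 - ε) * 1 := mul_le_mul_of_nonneg_left (hP S) (by linarith)
    linarith

lemma log_small (c : ℝ) (hc : 0 < c) : ∃ k₀ : ℕ, ∀ k : ℕ, k₀ ≤ k → Real.log k ≤ c * k := by
  obtain ⟨k₀, h⟩ := eventually_atTop.1 ((Real.isLittleO_log_id_atTop.comp_tendsto tendsto_natCast_atTop_atTop).bound hc)
  refine ⟨k₀, fun k hk => ?_⟩
  have h1 := h k hk
  simp only [Function.comp, id, Real.norm_eq_abs, Nat.abs_cast] at h1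
  exact (le_abs_self _).trans h1

lemma pow_small (m b : ℕ) (hb : 2 ≤ b) : ∃ k₀ : ℕ, ∀ k : ℕ, k₀ ≤ k → (k : ℝ) ^ m ≤ (b : ℝ) ^ k := by
  have hb1 : (1 : ℝ) < b := by exact_mod_cast hb
  have h := tendsto_pow_const_div_const_pow_of_one_lt m hb1
  obtain ⟨k₀, h0⟩ := eventually_atTop.1 (h.eventually_lt_const (by norm_num : (0 : ℝ) < 1))
  refine ⟨k₀, fun k hk => ?_⟩
  have h1 := h0 k hk
  rw [div_lt_one (by positivity)] at h1
  exact h1.le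

/-- from windows of a fixed length to windows of the length `(log x) ^ s` -/
theorem vary (b B C e : ℕ) (hb : 2 ≤ b) (ε : ℝ) (hε : 0 < ε) (hε1 : ε ≤ 1 / 4) (l S : ℕ) : ∃ k₁ : ℕ, ∀ k : ℕ, k₁ ≤ k →
    ∀ (A : Finset ℕ) (n : ℕ), A ⊆ Icc 1 (B * b ^ k) → ((b ^ k : ℕ) : ℝ) / (k : ℝ) ^ C ≤ A.card → 1 ≤ n → n < b ^ (k + e) →
    (∀ y : ℕ, (k : ℝ) ^ l ≤ y → y ≤ B * b ^ k →
      |(∑ a ∈ A, (pin (a + n) y : ℝ)) * Real.log ((b ^ k : ℕ) : ℝ) - A.card * y| ≤ ε * (A.card * y) ∧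
      ∃ F : Finset ℕ, F ⊆ A ∧ (∀ a ∈ F, ε / 2 * y ≤ (pin (a + n) y : ℝ) * Real.log ((b ^ k : ℕ) : ℝ)) ∧
        (1 / 4 - ε) * A.card ≤ (F.card : ℝ)) →
    ∀ s : ℝ, ((l + 1 : ℕ) : ℝ) ≤ s → s ≤ S →
      |∑ a ∈ A, rat s ((a + n : ℕ) : ℝ) - A.card| ≤ (8 * ε) * A.card ∧
      ∃ F' : Finset ℕ, F' ⊆ A ∧ (∀ a ∈ F', ε / 4 ≤ rat s ((a + n : ℕ) : ℝ)) ∧ (1 / 4 - 8 * ε) * A.card ≤ (F'.card : ℝ) := by
  classical
  obtain ⟨δ, hδ0, hδ1, d1, d2⟩ := exists_delta ε hε hε1 S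
  obtain ⟨ka, ha⟩ := pow_small (2 * S) b hb
  obtain ⟨kb, hkb⟩ := log_small (δ / (2 * (C + 2))) (by positivity)
  obtain ⟨kc, hkc⟩ := exists_nat_ge (2 * ((B + b ^ e : ℕ) : ℝ) / δ + 2 * b / ε + 4 / ε)
  refine ⟨ka + kb + kc + 2 * 4 ^ (l + 1) + 2 * b + 4, fun k hk A n hA1 hA2 hn1 hn2 hG s hs1 hs2 => ?_⟩
  have hkr : (0 : ℝ) < k := by exact_mod_cast (by omega : 0 < k)
  have hk4 : (4 : ℝ) ≤ k := by exact_mod_cast (by omega : 4 ≤ k)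
  have hkc' : (kc : ℝ) ≤ k := by exact_mod_cast (by omega : kc ≤ k)
  have hb0 : 0 < b := by omega
  have hbr : (2 : ℝ) ≤ b := by exact_mod_cast hb
  have hN0 : 0 < b ^ k := Nat.pow_pos hb0
  have hNr : (0 : ℝ) < ((b ^ k : ℕ) : ℝ) := by exact_mod_cast hN0
  have hp1 : 0 ≤ 2 * ((B + b ^ e : ℕ) : ℝ) / δ := by positivity
  have hp2 : 0 ≤ 2 * (b : ℝ) / ε := by positivity
  have hp3 : 0 ≤ 4 / ε := by positivity
  have q1 : 2 * ((B + b ^ e : ℕ) : ℝ) ≤ δ * k := by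
    have : 2 * ((B + b ^ e : ℕ) : ℝ) / δ ≤ k := by linarith
    rw [div_le_iff₀ hδ0] at this
    linarith
  have q2 : 2 * (b : ℝ) ≤ ε * k := by
    have : 2 * (b : ℝ) / ε ≤ k := by linarith
    rw [div_le_iff₀ hε] at this
    linarith
  have q3 : 4 ≤ ε * k := by
    have : 4 / ε ≤ k := by linarith
    rw [div_le_iff₀ hε] at this
    linarith
  have q4 : 2 * (b : ℝ) ≤ k := by exact_mod_cast (by omega : 2 * b ≤ k)
  have q5 : 2 * (4 : ℝ) ^ (l + 1) ≤ k := by exact_mod_cast (by omega : 2 * 4 ^ (l + 1) ≤ k)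
  obtain ⟨L, hL⟩ : ∃ L : ℝ, L = Real.log ((b ^ k : ℕ) : ℝ) := ⟨_, rfl⟩
  rw [← hL] at hG
  have hLk : L = k * Real.log b := by rw [hL]; push_cast; rw [Real.log_pow]
  have hlb1 : 1 / 2 ≤ Real.log b := by
    have h2 : Real.log 2 ≤ Real.log b := Real.log_le_log (by norm_num) hbr
    have h3 := Real.log_two_gt_d9
    linarith
  have hlb2 : Real.log b ≤ b := (Real.log_le_sub_one_of_pos (by linarith)).trans (by linarith)
  have hL1 : (k : ℝ) / 2 ≤ L := by rw [hLk]; nlinarith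
  have hL2 : L ≤ k * b := by rw [hLk]; exact mul_le_mul_of_nonneg_left hlb2 hkr.le
  have hL0 : 0 < L := by linarith
  -- the small elements
  obtain ⟨sm, hsm⟩ : ∃ sm, sm = A.filter (fun a => a * k ^ (C + 2) < b ^ k) := ⟨_, rfl⟩
  have hsmA : sm ⊆ A := by rw [hsm]; exact filter_subset _ _
  have hkC : 0 < k ^ (C + 2) := Nat.pow_pos (by omega)
  have c1 : sm.card * k ^ (C + 2) ≤ b ^ k := by
    have h3 : sm ⊆ Icc 1 (b ^ k / k ^ (C + 2)) := by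
      intro a ha'
      rw [hsm, mem_filter] at ha'
      rw [mem_Icc, Nat.le_div_iff_mul_le hkC]
      exact ⟨(mem_Icc.1 (hA1 ha'.1)).1, ha'.2.le⟩
    have h4 := card_le_card h3
    rw [Nat.card_Icc, Nat.add_sub_cancel] at h4
    exact (Nat.mul_le_mul_right _ h4).trans (Nat.div_mul_le_self _ _)
  have hkCr : (0 : ℝ) < (k : ℝ) ^ C := by positivity
  have c2 : ((b ^ k : ℕ) : ℝ) ≤ A.card * (k : ℝ) ^ C := by rwa [div_le_iff₀ hkCr] at hA2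
  have c3 : (sm.card : ℝ) * (k : ℝ) ^ 2 ≤ A.card := by
    have h3 : (sm.card : ℝ) * (k : ℝ) ^ (C + 2) ≤ ((b ^ k : ℕ) : ℝ) := by exact_mod_cast c1
    have h4 : (sm.card : ℝ) * (k : ℝ) ^ 2 * (k : ℝ) ^ C ≤ A.card * (k : ℝ) ^ C := by
      refine le_trans (le_of_eq ?_) (h3.trans c2)
      rw [pow_add]
      ring
    exact le_of_mul_le_mul_right h4 hkCr
  have hsmc : (sm.card : ℝ) * (2 * L) ≤ ε * A.card := by
    have h3 : 2 * L ≤ ε * (k : ℝ) ^ 2 := by nlinarith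
    calc (sm.card : ℝ) * (2 * L) ≤ sm.card * (ε * (k : ℝ) ^ 2) := mul_le_mul_of_nonneg_left h3 (Nat.cast_nonneg _)
      _ = ε * (sm.card * (k : ℝ) ^ 2) := by ring
      _ ≤ ε * A.card := mul_le_mul_of_nonneg_left c3 hε.le
  -- the set is not empty
  have hB : 1 ≤ B := by
    have h3 : (0 : ℝ) < A.card := lt_of_lt_of_le (by positivity) hA2
    have h4 : 0 < A.card := by exact_mod_cast h3
    rw [card_pos] at h4
    obtain ⟨a, ha'⟩ := h4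
    have h5 := mem_Icc.1 (hA1 ha')
    by_contra hcon
    have h6 : B = 0 := by omega
    rw [h6, zero_mul] at h5
    omega
  have h2x : ∀ a ∈ A, 2 ≤ a + n := by
    intro a ha'
    have h5 := mem_Icc.1 (hA1 ha')
    omega
  have hup : ∀ a ∈ A, Real.log ((a + n : ℕ) : ℝ) ≤ (1 + δ) * L := by
    intro a ha'
    have h5 := mem_Icc.1 (hA1 ha')
    have h6 : a + n ≤ (B + b ^ e) * b ^ k := by
      have : b ^ (k + e) = b ^ e * b ^ k := by rw [pow_add]; ring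
      rw [this] at hn2
      have h7 : (B + b ^ e) * b ^ k = B * b ^ k + b ^ e * b ^ k := by ring
      omega
    have h7 : ((a + n : ℕ) : ℝ) ≤ ((B + b ^ e : ℕ) : ℝ) * ((b ^ k : ℕ) : ℝ) := by exact_mod_cast h6
    have h8 : (0 : ℝ) < ((a + n : ℕ) : ℝ) := by exact_mod_cast (by omega : 0 < a + n)
    have h9 : (0 : ℝ) < ((B + b ^ e : ℕ) : ℝ) := by exact_mod_cast (by omega : 0 < B + b ^ e)
    have h10 := Real.log_le_log h8 h7
    rw [Real.log_mul h9.ne' hNr.ne', ← hL] at h10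
    have h11 := Real.log_le_sub_one_of_pos h9
    nlinarith
  have hlow : ∀ a ∈ A, a ∉ sm → (1 - δ) * L ≤ Real.log ((a + n : ℕ) : ℝ) := by
    intro a ha' hna
    have h5 := mem_Icc.1 (hA1 ha')
    have h6 : b ^ k ≤ a * k ^ (C + 2) := by
      by_contra hcon
      apply hna
      rw [hsm, mem_filter]
      exact ⟨ha', by omega⟩
    have h7 : ((b ^ k : ℕ) : ℝ) ≤ (a : ℝ) * (k : ℝ) ^ (C + 2) := by exact_mod_cast h6
    have ha0 : (0 : ℝ) < a := by exact_mod_cast (by omega : 0 < a)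
    have h8 := Real.log_le_log hNr h7
    rw [Real.log_mul ha0.ne' (by positivity), Real.log_pow, ← hL] at h8
    have h9 : Real.log (a : ℝ) ≤ Real.log ((a + n : ℕ) : ℝ) := Real.log_le_log ha0 (by push_cast; linarith [(Nat.cast_nonneg n : (0 : ℝ) ≤ n)])
    have h10 : ((C + 2 : ℕ) : ℝ) * Real.log k ≤ δ * L := by
      have h11 := hkb k (by omega)
      have h12 : ((C + 2 : ℕ) : ℝ) * Real.log k ≤ ((C + 2 : ℕ) : ℝ) * (δ / (2 * (C + 2)) * k) :=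
        mul_le_mul_of_nonneg_left h11 (Nat.cast_nonneg _)
      have h13 : ((C + 2 : ℕ) : ℝ) * (δ / (2 * (C + 2)) * k) = δ * (k / 2) := by
        push_cast
        field_simp
      rw [h13] at h12
      exact h12.trans (mul_le_mul_of_nonneg_left hL1 hδ0.le)
    linarith
  -- the lengths
  have hs0 : 0 ≤ s := le_trans (Nat.cast_nonneg _) hs1
  obtain ⟨T₁, hT₁⟩ : ∃ T₁ : ℝ, T₁ = (1 - δ) ^ s * L ^ s := ⟨_, rfl⟩
  obtain ⟨T₂, hT₂⟩ : ∃ T₂ : ℝ, T₂ = (1 + δ) ^ s * L ^ s := ⟨_, rfl⟩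
  have hT12 : T₁ ≤ T₂ := by
    rw [hT₁, hT₂]
    apply mul_le_mul_of_nonneg_right _ (Real.rpow_nonneg hL0.le s)
    exact Real.rpow_le_rpow (by linarith) (by linarith) hs0
  have hk41 : 1 ≤ (k : ℝ) / 4 := by linarith
  have t1 : ((k : ℝ) / 4) ^ (l + 1) ≤ T₁ := by
    rw [hT₁, ← Real.mul_rpow (by linarith) hL0.le, ← Real.rpow_natCast]
    calc ((k : ℝ) / 4) ^ ((l + 1 : ℕ) : ℝ) ≤ ((k : ℝ) / 4) ^ s := Real.rpow_le_rpow_of_exponent_le hk41 hs1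
      _ ≤ ((1 - δ) * L) ^ s := Real.rpow_le_rpow (by linarith) (by nlinarith) hs0
  have t2 : 2 * (k : ℝ) ^ l ≤ T₁ := by
    refine le_trans ?_ t1
    rw [div_pow, le_div_iff₀ (by positivity), pow_succ (k : ℝ)]
    have := mul_le_mul_of_nonneg_left q5 (by positivity : (0 : ℝ) ≤ (k : ℝ) ^ l)
    linarith
  have t3 : (k : ℝ) / 4 ≤ T₁ := (le_self_pow₀ hk41 (by omega)).trans t1
  have t4 : 1 ≤ ε * T₁ := by
    have := mul_le_mul_of_nonneg_left t3 hε.le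
    linarith
  have t5 : 2 ≤ T₁ := by
    have : (1 : ℝ) ≤ (k : ℝ) ^ l := one_le_pow₀ (by linarith)
    linarith
  have t6 : T₂ ≤ (b : ℝ) ^ k := by
    rw [hT₂, ← Real.mul_rpow (by linarith) hL0.le]
    calc ((1 + δ) * L) ^ s ≤ ((k : ℝ) ^ 2) ^ s := Real.rpow_le_rpow (mul_nonneg (by linarith) hL0.le) (by nlinarith) hs0
      _ ≤ ((k : ℝ) ^ 2) ^ (S : ℝ) := Real.rpow_le_rpow_of_exponent_le (one_le_pow₀ (by linarith)) hs2
      _ = (k : ℝ) ^ (2 * S) := by rw [Real.rpow_natCast, ← pow_mul]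
      _ ≤ _ := ha k (by omega)
  have hy1 : T₁ - 1 ≤ (⌊T₁⌋₊ : ℝ) := (Nat.sub_one_lt_floor T₁).le
  have hy12 : ⌊T₁⌋₊ ≤ ⌊T₂⌋₊ := Nat.floor_mono hT12
  have hkl : (k : ℝ) ^ l ≤ (⌊T₁⌋₊ : ℝ) := by linarith
  have hkl2 : (k : ℝ) ^ l ≤ (⌊T₂⌋₊ : ℝ) := hkl.trans (by exact_mod_cast hy12)
  have hy2 : ⌊T₂⌋₊ ≤ B * b ^ k := by
    have h3 : (⌊T₂⌋₊ : ℝ) ≤ ((b ^ k : ℕ) : ℝ) := by
      refine (Nat.floor_le (by linarith)).trans ?_
      push_cast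
      exact t6
    have h4 : ⌊T₂⌋₊ ≤ b ^ k := by exact_mod_cast h3
    exact h4.trans (Nat.le_mul_of_pos_left _ hB)
  obtain ⟨G1, F, hF, hF1, hF2⟩ := hG ⌊T₁⌋₊ hkl (hy12.trans hy2)
  obtain ⟨G2, -⟩ := hG ⌊T₂⌋₊ hkl2 hy2
  exact reg A sm n S L δ ε s hε hε1 (by linarith) hδ0 (by linarith) hs0 hs2 d1 d2 hsmA hsmc h2x hup hlow ⌊T₁⌋₊ ⌊T₂⌋₊
    (by rw [hT₁]) (by rw [hT₂]) (by rw [← hT₁]; linarith) G1 G2 F hF hF1 hF2

end Pool.Agent.H913.PT
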