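import Pool.Agent.H913.PT.All
import Pool.Agent.H913.PT.Vary

set_option autoImplicit false

/-! The general theorem for random integers with small characteristic function. -/

namespace Pool.Agent.H913.PT
open Finset

/-- windows of a fixed length -/
def Good0 (ε : ℝ) (l b B k : ℕ) (A : Finset ℕ) (n : ℕ) : Prop :=
  ∀ y : ℕ, (k : ℝ) ^ l ≤ y → y ≤ B * b ^ k →
    |(∑ a ∈ A, (pin (a + n) y : ℝ)) * Real.log ((b ^ k : ℕ) : ℝ) - A.card * y| ≤ ε * (A.card * y) ∧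
    ∃ F : Finset ℕ, F ⊆ A ∧ (∀ a ∈ F, ε / 2 * y ≤ (pin (a + n) y : ℝ) * Real.log ((b ^ k : ℕ) : ℝ)) ∧
      (1 / 4 - ε) * A.card ≤ (F.card : ℝ)

/-- windows of the length `(log x) ^ s` -/
def Good1 (ε : ℝ) (l S : ℕ) (A : Finset ℕ) (n : ℕ) : Prop :=
  ∀ s : ℝ, (l : ℝ) ≤ s → s ≤ S →
    |∑ a ∈ A, rat s ((a + n : ℕ) : ℝ) - A.card| ≤ ε * A.card ∧
    ∃ F : Finset ℕ, F ⊆ A ∧ (∀ a ∈ F, ε / 32 ≤ rat s ((a + n : ℕ) : ℝ)) ∧ (1 / 4 - ε) * A.card ≤ (F.card : ℝ)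

lemma Good0.mono {ε : ℝ} {l l' b B k : ℕ} (hk : 1 ≤ k) (hl : l ≤ l') {A : Finset ℕ} {n : ℕ} (h : Good0 ε l b B k A n) :
    Good0 ε l' b B k A n := by
  intro y hy1 hy2
  exact h y ((pow_le_pow_right₀ (by exact_mod_cast hk) hl).trans hy1) hy2

lemma Good1.mono {ε : ℝ} {l l' S : ℕ} (hl : l ≤ l') {A : Finset ℕ} {n : ℕ} (h : Good1 ε l S A n) :
    Good1 ε l' S A n := by
  intro s hs1 hs2
  exact h s (le_trans (by exact_mod_cast hl) hs1) hs2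

/-- from the scale `b ^ K` to the scale `b ^ k` -/
lemma conv (b B e : ℕ) (hb : 2 ≤ b) (he : B + 3 ≤ e) (ε : ℝ) (hε : 0 < ε) (l : ℕ) : ∃ k₁ : ℕ, ∀ k : ℕ, k₁ ≤ k →
    ∀ (A : Finset ℕ) (n : ℕ), (∀ y : ℕ, ((k + e : ℕ) : ℝ) ^ l ≤ y → 8 * y ≤ b ^ (k + e) →
      (|Pool.Agent.W301.SS.cs A n y * Real.log ((b ^ (k + e) : ℕ) : ℝ) - A.card * y| ≤ (3 * ε / 4) * (A.card * y) ∧
        (1 / 4 - 3 * ε / 4) * A.card ≤ (Pool.Agent.W301.SS.GG A (b ^ (k + e)) n y (3 * ε / 4)).card)) →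
    Good0 ε (2 * l) b B k A n := by
  classical
  obtain ⟨k1, h1⟩ := exists_nat_ge (4 * e / ε)
  refine ⟨k1 + 2 * e + 2, fun k hk A n hgood y hy1 hy2 => ?_⟩
  have hk0 : (0 : ℝ) < k := by exact_mod_cast (by omega : 0 < k)
  have hbr : (2 : ℝ) ≤ b := by exact_mod_cast hb
  have hlb : 0 < Real.log b := Real.log_pos (by linarith)
  have hL1 : Real.log ((b ^ k : ℕ) : ℝ) = k * Real.log b := by push_cast; rw [Real.log_pow]
  have hL2 : Real.log ((b ^ (k + e) : ℕ) : ℝ) = (k + e) * Real.log b := by push_cast; rw [Real.log_pow]; push_cast; ring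
  have hke : (e : ℝ) ≤ ε / 4 * k := by
    have h2 : 4 * e / ε ≤ k := h1.trans (by exact_mod_cast (by omega : k1 ≤ k))
    rw [div_le_iff₀ hε] at h2
    linarith
  have hke2 : (2 * e : ℝ) ≤ k := by exact_mod_cast (by omega : 2 * e ≤ k)
  have he0 : (0 : ℝ) ≤ e := Nat.cast_nonneg _
  obtain ⟨t, ht⟩ : ∃ t : ℝ, t = k / (k + e) := ⟨_, rfl⟩
  have ht0 : 0 ≤ t := by rw [ht]; positivity
  have ht1 : t ≤ 1 := by rw [ht, div_le_one (by positivity)]; linarith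
  have ht2 : 2 / 3 ≤ t := by rw [ht, div_le_div_iff₀ (by norm_num) (by positivity)]; linarith
  have ht3 : 1 - t ≤ ε / 4 := by
    have : 1 - t = e / (k + e) := by rw [ht]; field_simp; ring
    rw [this, div_le_iff₀ (by positivity)]
    nlinarith
  have hLt : Real.log ((b ^ k : ℕ) : ℝ) = Real.log ((b ^ (k + e) : ℕ) : ℝ) * t := by
    rw [hL1, hL2, ht]
    field_simp
  have hB : B ≤ b ^ B := (Nat.lt_pow_self (by omega)).le
  obtain ⟨g1, g2⟩ := hgood y (by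
    refine le_trans ?_ hy1
    rw [pow_mul]
    apply pow_le_pow_left₀ (Nat.cast_nonneg _)
    push_cast
    have h2 : (2 : ℝ) ≤ k := by exact_mod_cast (by omega : 2 ≤ k)
    nlinarith) (by
    calc 8 * y ≤ 8 * (B * b ^ k) := Nat.mul_le_mul_left _ hy2
      _ ≤ b ^ 3 * (b ^ B * b ^ k) := by
          apply Nat.mul_le_mul
          · calc 8 = 2 ^ 3 := by norm_num
              _ ≤ b ^ 3 := Nat.pow_le_pow_left hb 3
          · exact Nat.mul_le_mul_right _ hB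
      _ = b ^ (k + (B + 3)) := by rw [← pow_add, ← pow_add]; congr 1; ring
      _ ≤ b ^ (k + e) := Nat.pow_le_pow_right (by omega) (by omega))
  obtain ⟨c, hc⟩ : ∃ c : ℝ, c = A.card := ⟨_, rfl⟩
  have hc0 : 0 ≤ c := by rw [hc]; exact Nat.cast_nonneg _
  have hy0 : (0 : ℝ) ≤ y := Nat.cast_nonneg _
  have hcs : Pool.Agent.W301.SS.cs A n y = ∑ a ∈ A, (pin (a + n) y : ℝ) := rfl
  refine ⟨?_, Pool.Agent.W301.SS.GG A (b ^ (k + e)) n y (3 * ε / 4), ?_, ?_, ?_⟩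
  · rw [hcs] at g1
    have e0 : (∑ a ∈ A, (pin (a + n) y : ℝ)) * Real.log ((b ^ k : ℕ) : ℝ) =
        (∑ a ∈ A, (pin (a + n) y : ℝ)) * Real.log ((b ^ (k + e) : ℕ) : ℝ) * t := by rw [hLt]; ring
    rw [e0]
    obtain ⟨S, hS⟩ : ∃ S : ℝ, S = (∑ a ∈ A, (pin (a + n) y : ℝ)) * Real.log ((b ^ (k + e) : ℕ) : ℝ) := ⟨_, rfl⟩
    rw [← hS, ← hc] at g1 ⊢
    rw [abs_le] at g1 ⊢
    have hcy : 0 ≤ c * y := mul_nonneg hc0 hy0
    have e1 : S * t ≤ (1 + 3 * ε / 4) * (c * y) * t := mul_le_mul_of_nonneg_right (by linarith [g1.2]) ht0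
    have e2 : (1 - 3 * ε / 4) * (c * y) * t ≤ S * t := mul_le_mul_of_nonneg_right (by linarith [g1.1]) ht0
    have e3 : (1 + 3 * ε / 4) * (c * y) * t ≤ (1 + 3 * ε / 4) * (c * y) :=
      mul_le_of_le_one_right (by positivity) ht1
    have e4 : (1 - t) * (c * y) ≤ ε / 4 * (c * y) := mul_le_mul_of_nonneg_right ht3 hcy
    have e5 : 0 ≤ (3 * ε / 4) * (c * y) * (1 - t) := mul_nonneg (by positivity) (by linarith)
    have e6 : 0 ≤ ε * (c * y) := by positivity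
    constructor
    · nlinarith
    · nlinarith
  · unfold Pool.Agent.W301.SS.GG
    exact filter_subset _ _
  · intro a ha
    unfold Pool.Agent.W301.SS.GG at ha
    rw [mem_filter] at ha
    have h5 : (3 * ε / 4) * y ≤ (pin (a + n) y : ℝ) * Real.log ((b ^ (k + e) : ℕ) : ℝ) := ha.2
    have e0 : (pin (a + n) y : ℝ) * Real.log ((b ^ k : ℕ) : ℝ) =
        (pin (a + n) y : ℝ) * Real.log ((b ^ (k + e) : ℕ) : ℝ) * t := by rw [hLt]; ring
    rw [e0]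
    have h6 := mul_le_mul_of_nonneg_right h5 ht0
    have h7 : (3 * ε / 4) * y * (2 / 3) ≤ (3 * ε / 4) * y * t := mul_le_mul_of_nonneg_left ht2 (by positivity)
    linarith
  · refine le_trans ?_ g2
    apply mul_le_mul_of_nonneg_right _ (Nat.cast_nonneg _)
    linarith

/-- the general theorem at the scale `b ^ k` -/
theorem core (b B F e : ℕ) (hb : 2 ≤ b) (hF : 1 ≤ F) (he : B + 3 ≤ e) (C U : ℕ) (ε : ℝ) (hε : 0 < ε) (hε1 : ε ≤ 1 / 4) :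
    ∃ V : ℕ, ∀ D : ℕ, ∃ l : ℕ, ∀ S : ℕ, ∃ k₀ : ℕ, ∀ k : ℕ, k₀ ≤ k → ∀ (ι : Type) (Ω : Finset ι) (p : ι → ℝ) (Y : ι → ℤ),
    Pool.Agent.W93.AU.Law b F D V (k + e) Ω p Y → (∀ ω ∈ Ω, 4 * |Y ω| < ((b ^ (k + e) : ℕ) : ℤ)) →
    ∀ A : Finset ℕ, A ⊆ Icc 1 (B * b ^ k) → ((b ^ k : ℕ) : ℝ) / (k : ℝ) ^ C ≤ A.card → ∀ E : ι → Prop, [DecidablePred E] →
    (∀ ω ∈ Ω, E ω → 0 < Y ω ∧ ¬ (Good0 (ε / 8) l b B k A (Y ω).toNat ∧ Good1 ε l S A (Y ω).toNat)) →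
    ∑ ω ∈ Ω, (if E ω then p ω else 0) ≤ 1 / (k : ℝ) ^ U := by
  obtain ⟨V, hV⟩ := all_law b F hb hF (C + 1) U (3 * (ε / 8) / 4) (by linarith) (by linarith)
  refine ⟨V, fun D => ?_⟩
  obtain ⟨l, K0, h0⟩ := hV D
  refine ⟨2 * l + 1, fun S => ?_⟩
  obtain ⟨k1, h1⟩ := conv b B e hb he (ε / 8) (by linarith) l
  obtain ⟨k2, h2⟩ := vary b B C e hb (ε / 8) (by linarith) (by linarith) (2 * l) S
  refine ⟨K0 + k1 + k2 + b ^ e + 1, fun k hk ι Ω p Y hlaw hY A hA1 hA2 E _ hE => ?_⟩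
  have hk0 : (0 : ℝ) < k := by exact_mod_cast (by omega : 0 < k)
  have hB : B ≤ b ^ B := (Nat.lt_pow_self (by omega)).le
  have hsize : B * b ^ k ≤ b ^ (k + e) / 4 := by
    rw [Nat.le_div_iff_mul_le (by norm_num)]
    calc B * b ^ k * 4 ≤ b ^ B * b ^ k * b ^ 3 := by
          apply Nat.mul_le_mul
          · exact Nat.mul_le_mul_right _ hB
          · calc 4 ≤ 2 ^ 3 := by norm_num
              _ ≤ b ^ 3 := Nat.pow_le_pow_left hb 3
      _ = b ^ (k + (B + 3)) := by rw [← pow_add, ← pow_add]; congr 1; ring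
      _ ≤ b ^ (k + e) := Nat.pow_le_pow_right (by omega) (by omega)
  have h := h0 (k + e) (by omega) ι Ω p Y hlaw hY A (hA1.trans (Icc_subset_Icc_right hsize)) (by
    have hA3 := hA2
    rw [div_le_iff₀ (by positivity)] at hA3
    have e1 : ((b ^ (k + e) : ℕ) : ℝ) = (b : ℝ) ^ e * ((b ^ k : ℕ) : ℝ) := by push_cast; rw [pow_add]; ring
    have e2 : (b : ℝ) ^ e ≤ ((k + e : ℕ) : ℝ) := by
      have : b ^ e ≤ k + e := by omega
      exact_mod_cast this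
    have e3 : (k : ℝ) ^ C ≤ ((k + e : ℕ) : ℝ) ^ C := pow_le_pow_left₀ hk0.le (by exact_mod_cast (by omega : k ≤ k + e)) C
    rw [e1]
    calc (b : ℝ) ^ e * ((b ^ k : ℕ) : ℝ) ≤ ((k + e : ℕ) : ℝ) * (A.card * ((k + e : ℕ) : ℝ) ^ C) := by
          apply mul_le_mul e2 (hA3.trans (mul_le_mul_of_nonneg_left e3 (Nat.cast_nonneg _))) (Nat.cast_nonneg _) (Nat.cast_nonneg _)
      _ = A.card * ((k + e : ℕ) : ℝ) ^ (C + 1) := by rw [pow_succ]; ring) E (by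
    intro ω hω hEω
    obtain ⟨c1, c2⟩ := hE ω hω hEω
    refine ⟨c1, ?_⟩
    by_contra hcon
    apply c2
    obtain ⟨n, hn⟩ : ∃ n, n = (Y ω).toNat := ⟨_, rfl⟩
    have hYn : Y ω = (n : ℤ) := by rw [hn]; exact (Int.toNat_of_nonneg c1.le).symm
    rw [← hn] at hcon ⊢
    have hn1 : 1 ≤ n := by
      rw [hYn] at c1
      exact_mod_cast c1
    have hn2 : n < b ^ (k + e) := by
      have e1 := hY ω hω
      have e2 := le_abs_self (Y ω)
      rw [hYn] at e1 e2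
      have e3 : (n : ℤ) < ((b ^ (k + e) : ℕ) : ℤ) := by omega
      exact_mod_cast e3
    have hG0 : Good0 (ε / 8) (2 * l) b B k A n := by
      apply h1 k (by omega) A n
      intro y hy1 hy2
      by_contra hno
      exact hcon ⟨y, hy1, hy2, hno⟩
    refine ⟨hG0.mono (by omega) (by omega), ?_⟩
    intro s hs1 hs2
    obtain ⟨r1, F', r2, r3, r4⟩ := h2 k (by omega) A n hA1 hA2 hn1 hn2 hG0 s hs1 hs2
    have e8 : 8 * (ε / 8) = ε := by ring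
    rw [e8] at r1 r4
    refine ⟨r1, F', r2, fun a ha => ?_, r4⟩
    have := r3 a ha
    linarith)
  refine h.trans ?_
  apply one_div_le_one_div_of_le (by positivity)
  apply pow_le_pow_left₀ hk0.le
  exact_mod_cast (by omega : k ≤ k + e)

end Pool.Agent.H913.PT
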