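import Pool.Agent.TH894.LH6
import Pool.Agent.W93.AU1
import Pool.Agent.W93.LM6

set_option autoImplicit false

/-! Primes in short intervals to the right of the points of a translate by a random integer with small characteristic
function: the second moment. The proofs follow the starting files `Pool.Agent.TH894.LH4` and `Pool.Agent.W93.AU12`, `AU13`. -/

namespace Pool.Agent.H913.PT
open Finset
open Pool.Agent.H807R2.Dav
open Pool.Agent.H373R2.T7 (SupSmall exI orth conj_ee)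
open Pool.Agent.W93.DG
open Pool.Agent.W93.RD
open Pool.Agent.W93.TD (sqrt_num)
open Pool.Agent.W93.LM
open Pool.Agent.W93.AU
open Pool.Agent.W301.SS
open Pool.Agent.TH646.TT
open Pool.Agent.TH894.LH

/-- the properties of the function `u` -/
def UF (b F R A K W : ℕ) (u : ℕ → ℂ) : Prop :=
  (∑ r ∈ range (b ^ (K + 1)), ‖FC u (b ^ K) (b ^ (K + 1)) r‖ ^ 2 ≤ ((b ^ (K + 1) : ℕ) : ℝ) * ((b ^ K : ℕ) : ℝ) * (K : ℝ) ^ 4) ∧
  (∀ r₀ : ℕ, ∀ S : Finset ℕ, (∀ r' ∈ S, r' < b ^ (K + 1) ∧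
        Bad b R K (hh b A K) (K / (16 * b)) ((F * r' + r₀) % b ^ (K + 1))) →
      ∑ r' ∈ S, ‖FC u (b ^ K) (b ^ (K + 1)) r'‖ ^ 2 ≤ ((b ^ (K + 1) : ℕ) : ℝ) * ((b ^ K : ℕ) : ℝ) / (K : ℝ) ^ W)

theorem uf_ua (b F : ℕ) (hb : 2 ≤ b) (hF : 1 ≤ F) : ∃ R : ℕ, 1 ≤ R ∧ ∀ W A₀ : ℕ, ∃ A κ₀ : ℕ, A₀ ≤ A ∧ ∀ κ : ℕ, κ₀ ≤ κ → ∃ k₀ : ℕ,
    ∀ K : ℕ, k₀ ≤ K → UF b F R A K W (ua (K ^ κ)) := by
  obtain ⟨R, hR, hbad⟩ := bad_sqU b hb
  refine ⟨R, hR, fun W A₀ => ?_⟩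
  obtain ⟨A, U₁, hUA, k1, h1⟩ := hbad F (W + A₀)
  obtain ⟨K0, n2, h2⟩ := sup_ua U₁
  obtain ⟨n3, h3⟩ := PP_ua
  refine ⟨A, 2 * K0, by omega, fun κ hκ => ?_⟩
  obtain ⟨k4, h4⟩ := poly_small b (κ + 3) hb
  have hb1 : 1 < b := by omega
  refine ⟨k1 + n2 + n3 + k4 + 32 * b + 4, fun K hK => ?_⟩
  obtain ⟨y, hy⟩ : ∃ y, y = K ^ κ := ⟨_, rfl⟩
  rw [← hy]
  obtain ⟨X, hX⟩ : ∃ X, X = b ^ K := ⟨_, rfl⟩
  have hKX : K < X := by rw [hX]; exact Nat.lt_pow_self hb1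
  have hX1 : 1 ≤ X := by omega
  have hX0 : (0 : ℝ) < X := by exact_mod_cast hX1
  have hK0 : (0 : ℝ) < K := by exact_mod_cast (by omega : 0 < K)
  have hK1 : (1 : ℝ) ≤ K := by exact_mod_cast (by omega : 1 ≤ K)
  have hKb : (b : ℝ) + 3 ≤ K := by exact_mod_cast (by omega : b + 3 ≤ K)
  have hbr : (2 : ℝ) ≤ b := by exact_mod_cast hb
  have hlb : Real.log b ≤ b - 1 := Real.log_le_sub_one_of_pos (by linarith)
  have hLX : Real.log X = K * Real.log b := by rw [hX]; push_cast; rw [Real.log_pow]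
  have hlb0 : 0 ≤ Real.log b := Real.log_natCast_nonneg b
  have hLX2 : Real.log X + 2 ≤ (K : ℝ) ^ 2 := by
    rw [hLX]
    nlinarith
  have hLX0 : 0 ≤ Real.log X := Real.log_natCast_nonneg X
  -- the size of y
  obtain ⟨V, hV⟩ : ∃ V, V = b ^ (K / (16 * b)) := ⟨_, rfl⟩
  have hVK : K ^ (κ + 3) ≤ V := by rw [hV]; exact h4 K (by omega)
  have hyV : y ≤ V := by
    refine le_trans ?_ hVK
    rw [hy]
    exact Nat.pow_le_pow_right (by omega) (by omega)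
  have hy1 : 1 ≤ y := by rw [hy]; exact Nat.one_le_pow _ _ (by omega)
  have hK3V : K ^ 3 ≤ V := le_trans (Nat.pow_le_pow_right (by omega) (by omega)) hVK
  have hV4 : 4 ≤ V := by
    have : 4 ≤ K ^ 3 := by
      calc 4 ≤ 4 ^ 3 := by norm_num
        _ ≤ K ^ 3 := Nat.pow_le_pow_left (by omega) 3
    omega
  have hVX : (V * V) * (V * V) ≤ X := by
    rw [hV, hX, ← pow_add, ← pow_add]
    apply Nat.pow_le_pow_right (by omega)
    have h5 : 16 * b * (K / (16 * b)) ≤ K := Nat.mul_div_le K (16 * b)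
    have h6 : 4 * (K / (16 * b)) ≤ 16 * b * (K / (16 * b)) := Nat.mul_le_mul_right _ (by omega)
    omega
  have hLV : 2 * Real.log X ≤ V := by
    have h5 : ((K ^ 3 : ℕ) : ℝ) ≤ V := by exact_mod_cast hK3V
    push_cast at h5
    nlinarith [sq_nonneg (K : ℝ)]
  have hyL : Real.log X ^ K0 ≤ y := by
    rw [hy]
    push_cast
    calc Real.log X ^ K0 ≤ ((K : ℝ) ^ 2) ^ K0 := pow_le_pow_left₀ hLX0 (by linarith) K0
      _ = (K : ℝ) ^ (2 * K0) := by rw [← pow_mul]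
      _ ≤ (K : ℝ) ^ κ := pow_le_pow_right₀ hK1 hκ
  have hyX : (y : ℝ) ≤ (X : ℝ) ^ (1 / 2 : ℝ) := by
    have h5 : (V : ℝ) * V ≤ X := by
      exact_mod_cast (Nat.le_mul_of_pos_left _ (Nat.mul_pos (by omega) (by omega))).trans hVX
    rw [← Real.sqrt_eq_rpow]
    apply Real.le_sqrt_of_sq_le
    have h6 : (y : ℝ) ≤ V := by exact_mod_cast hyV
    nlinarith [(Nat.cast_nonneg y : (0 : ℝ) ≤ y)]
  refine ⟨?_, ?_⟩
  · have hXM : b ^ K ≤ b ^ (K + 1) := Nat.pow_le_pow_right (by omega) (by omega)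
    rw [FC_pars (ua y) _ _ (Nat.one_le_pow _ _ (by omega)) hXM, mul_assoc]
    apply mul_le_mul_of_nonneg_left _ (Nat.cast_nonneg _)
    have h5 : ∀ n ∈ Icc 1 (b ^ K), ‖ua y n‖ ^ 2 ≤ (K : ℝ) ^ 4 := by
      intro n hn
      rw [mem_Icc, ← hX] at hn
      have h6 := ua_norm X y n hy1 hn.2 (by nlinarith [Nat.mul_pos (show 0 < V by omega) (show 0 < V by omega)]) hX1
      have h7 : Real.log ((2 * X : ℕ) : ℝ) + 1 ≤ (K : ℝ) ^ 2 := by
        push_cast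
        rw [Real.log_mul (by norm_num) hX0.ne']
        linarith [Real.log_two_lt_d9]
      calc ‖ua y n‖ ^ 2 ≤ ((K : ℝ) ^ 2) ^ 2 := pow_le_pow_left₀ (norm_nonneg _) (h6.trans h7) 2
        _ = (K : ℝ) ^ 4 := by rw [← pow_mul]
    refine (sum_le_sum h5).trans (le_of_eq ?_)
    rw [sum_const, Nat.card_Icc, nsmul_eq_mul, Nat.add_sub_cancel]
  · intro r S hS
    have hsup := h2 X (by omega) y hyL hyX
    have hPP := h3 X (by omega) V hV4 hVX hLV y hy1 hyV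
    rw [hX] at hsup hPP
    rw [hV] at hPP
    have e1 := h1 K (by omega) (ua y) hsup hPP r F hF ((Nat.lt_pow_self hb1).le) S hS
    refine e1.trans ?_
    apply div_le_div_of_nonneg_left (by positivity) (by positivity)
    exact pow_le_pow_right₀ hK1 (by omega)

/-- the second moment is small -/
theorem law_var (b F : ℕ) (hb : 2 ≤ b) (R U D A₁ : ℕ) (hUA : D * R ≤ A₁) : ∃ K₀ : ℕ, ∀ K : ℕ, K₀ ≤ K →
    ∀ f : ℕ → ℂ, UF b F R A₁ K (2 * (U + 6)) f →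
    ∀ (ι : Type) (Ω : Finset ι) (p : ι → ℝ) (Y : ι → ℤ), Law b F D (U + 6) K Ω p Y →
    ∀ (g : ℕ → ℂ) (Fb : ℝ), 0 ≤ Fb → (∀ n ∈ Icc 1 (b ^ K), ‖g n‖ ≤ Fb) →
    ∀ A : ℕ → ℂ, (∀ r, ‖A r‖ = ‖FC g (b ^ K) (b ^ (K + 1)) r‖ * ‖FC f (b ^ K) (b ^ (K + 1)) r‖) →
    ∑ ω ∈ Ω, p ω * ‖EE A (b ^ (K + 1)) (Y ω)‖ ^ 2 ≤ (Fb * ((b ^ (K + 1) : ℕ) : ℝ) * ((b ^ K : ℕ) : ℝ)) ^ 2 / (K : ℝ) ^ U := by
  classical
  have hbr : (2 : ℝ) ≤ b := by exact_mod_cast hb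
  obtain ⟨k3, h3⟩ := hh_small b A₁ 4 hb
  obtain ⟨k4, hk4⟩ := exists_nat_ge ((1 : ℝ) * (1 + 1))
  refine ⟨k3 + k4 + 4, fun K hk f hf ι Ω p Yv hlaw gf Fb hFb0 hFb Af hAf => ?_⟩
  obtain ⟨X, hX⟩ : ∃ X, X = b ^ K := ⟨_, rfl⟩
  obtain ⟨M, hM⟩ : ∃ M, M = b ^ (K + 1) := ⟨_, rfl⟩
  have hchar := hlaw.char
  rw [← hX] at hFb hAf ⊢
  rw [← hM] at hAf hchar ⊢
  have hKX : K < X := by rw [hX]; exact Nat.lt_pow_self (by omega)
  have hXM : X ≤ M := by rw [hX, hM]; exact Nat.pow_le_pow_right (by omega) (by omega)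
  have hX0 : (0 : ℝ) < X := by exact_mod_cast (by omega : 0 < X)
  have hM0 : (0 : ℝ) < M := by exact_mod_cast (by omega : 0 < M)
  have hK4 : (4 : ℝ) ≤ K := by exact_mod_cast (by omega : 4 ≤ K)
  obtain ⟨G, hG⟩ : ∃ G : ℕ → ℂ, G = FC f X M := ⟨_, rfl⟩
  rw [← hG] at hAf
  obtain ⟨hf1, h1⟩ := hf
  rw [← hX, ← hM, ← hG] at hf1
  have hG2 : ∑ r ∈ range M, ‖G r‖ ^ 2 ≤ M * X * (K : ℝ) ^ 4 := hf1
  obtain ⟨Fn, hFn⟩ : ∃ Fn : ℕ → ℝ, Fn = fun r => ‖FC gf X M r‖ := ⟨_, rfl⟩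
  have hAf' : ∀ r, ‖Af r‖ = Fn r * ‖G r‖ := fun r => by rw [hAf, hFn]
  have hFn0 : ∀ r, 0 ≤ Fn r := fun r => by rw [hFn]; exact norm_nonneg _
  have hF2 : ∑ r ∈ range M, Fn r ^ 2 ≤ M * (Fb ^ 2 * X) := by
    rw [hFn]
    simp only
    rw [FC_pars gf X M (by omega) hXM]
    apply mul_le_mul_of_nonneg_left _ (Nat.cast_nonneg _)
    have h1 : ∀ n ∈ Icc 1 X, ‖gf n‖ ^ 2 ≤ Fb ^ 2 := fun n hn => pow_le_pow_left₀ (norm_nonneg _) (hFb n hn) 2
    refine (sum_le_sum h1).trans (le_of_eq ?_)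
    rw [sum_const, Nat.card_Icc, nsmul_eq_mul, Nat.add_sub_cancel, mul_comm]
  -- the bound of the characteristic function
  obtain ⟨s, hs⟩ : ∃ s : ℕ → ℕ → ℕ, s = fun r r' => (F * r' + F * (M - r)) % M := ⟨_, rfl⟩
  obtain ⟨g, hg⟩ : ∃ g : ℕ → ℝ, g = fun t => if D * (Nat.log b K + 1) ≤ ne b 0 K ((F * t) % M) then 1 / (K : ℝ) ^ (U + 6) else 1 := ⟨_, rfl⟩
  have hgt : ∀ t, g t = if D * (Nat.log b K + 1) ≤ ne b 0 K ((F * t) % M) then 1 / (K : ℝ) ^ (U + 6) else 1 := fun t => by rw [hg]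
  have hK1 : (1 : ℝ) ≤ (K : ℝ) ^ (U + 6) := one_le_pow₀ (by linarith)
  have hg1 : ∀ t, g t ≤ 1 := by
    intro t
    rw [hgt]
    split_ifs
    · rw [div_le_one (by linarith)]; exact hK1
    · exact le_rfl
  have hg0 : ∀ t, 0 ≤ g t := by
    intro t
    rw [hgt]
    split_ifs
    · positivity
    · norm_num
  have hvar := gen_var Ω p hlaw.nonneg Yv M (by omega) Af g (by
    intro t
    rw [hgt]
    split_ifs with hc
    · exact hchar t hc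
    · refine (norm_sum_le _ _).trans (le_trans ?_ hlaw.le_one)
      apply sum_le_sum
      intro ω hω
      rw [norm_mul, norm_ee, mul_one, Complex.norm_real, Real.norm_of_nonneg (hlaw.nonneg ω hω)])
  refine hvar.trans ?_
  clear hvar
  obtain ⟨T, hTd⟩ : ∃ T, T = ∑ r ∈ range M, Fn r * ‖G r‖ := ⟨_, rfl⟩
  have hT0 : 0 ≤ T := by rw [hTd]; exact sum_nonneg fun r _ => mul_nonneg (hFn0 r) (norm_nonneg _)
  obtain ⟨Y, hY⟩ : ∃ Y, Y = Fb * M * X := ⟨_, rfl⟩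
  have hY0 : 0 ≤ Y := by rw [hY]; positivity
  have hT' : T ≤ 1 * (K : ℝ) ^ 2 * Y := by
    have e1 := Real.sum_mul_le_sqrt_mul_sqrt (range M) Fn (fun r => ‖G r‖)
    have e2 : T ≤ √(M * (Fb ^ 2 * X)) * √(M * X * (K : ℝ) ^ 4) := by
      rw [hTd]
      refine e1.trans ?_
      exact mul_le_mul (Real.sqrt_le_sqrt hF2) (Real.sqrt_le_sqrt hG2) (Real.sqrt_nonneg _) (Real.sqrt_nonneg _)
    have e3 : √((M : ℝ) * X * (K : ℝ) ^ 4) = √((M : ℝ) * X) * (K : ℝ) ^ 2 := by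
      rw [Real.sqrt_mul (by positivity), show (K : ℝ) ^ 4 = ((K : ℝ) ^ 2) ^ 2 by ring, Real.sqrt_sq (by positivity)]
    rw [e3, ← mul_assoc] at e2
    refine e2.trans ?_
    have e4 := mul_le_mul_of_nonneg_right (sqrt_num3 M X Fb (M * X) hM0.le hX0.le hFb0 le_rfl) (by positivity : (0 : ℝ) ≤ (K : ℝ) ^ 2)
    refine e4.trans (le_of_eq ?_)
    rw [hY]
    ring
  -- the rows
  have hrow : ∀ r ∈ range M, ∑ r' ∈ range M, ‖Af r'‖ * g (r' + (M - r)) ≤ Y / (K : ℝ) ^ (U + 6) + 1 / (K : ℝ) ^ (U + 6) * T := by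
    intro r hr
    rw [mem_range] at hr
    have hss : ∀ r', (F * r' + F * (M - r)) % M = s r r' := fun r' => by rw [hs]
    rw [← sum_filter_add_sum_filter_not (range M) (fun r' => Bad b R K (hh b A₁ K) (K / (16 * b)) (s r r'))]
    apply add_le_add
    · have e1 := h1 (F * (M - r)) ((range M).filter (fun r' => Bad b R K (hh b A₁ K) (K / (16 * b)) (s r r'))) (by
          intro r' hr'
          rw [mem_filter, mem_range] at hr'
          rw [← hM, hss]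
          exact hr')
      rw [← hX, ← hM, ← hG] at e1
      have e2 : ∑ r' ∈ (range M).filter (fun r' => Bad b R K (hh b A₁ K) (K / (16 * b)) (s r r')), ‖Af r'‖ * g (r' + (M - r)) ≤
          ∑ r' ∈ (range M).filter (fun r' => Bad b R K (hh b A₁ K) (K / (16 * b)) (s r r')), Fn r' * ‖G r'‖ := by
        apply sum_le_sum
        intro r' _
        rw [hAf' r']
        exact mul_le_of_le_one_right (mul_nonneg (hFn0 _) (norm_nonneg _)) (hg1 _)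
      have e3 := Real.sum_mul_le_sqrt_mul_sqrt ((range M).filter (fun r' => Bad b R K (hh b A₁ K) (K / (16 * b)) (s r r')))
        Fn (fun r => ‖G r‖)
      refine e2.trans (e3.trans ?_)
      have e4 : ∑ r' ∈ (range M).filter (fun r' => Bad b R K (hh b A₁ K) (K / (16 * b)) (s r r')), Fn r' ^ 2 ≤ M * (Fb ^ 2 * X) :=
        (sum_le_sum_of_subset_of_nonneg (filter_subset _ _) fun _ _ _ => sq_nonneg _).trans hF2
      have e5 := sqrt_num M X Fb _ hM0.le hX0.le hFb0 (U + 6) K (by linarith) e1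
      rw [hY]
      exact (mul_le_mul_of_nonneg_right (Real.sqrt_le_sqrt e4) (Real.sqrt_nonneg _)).trans e5
    · have e1 : ∀ r' ∈ (range M).filter (fun r' => ¬ Bad b R K (hh b A₁ K) (K / (16 * b)) (s r r')),
          ‖Af r'‖ * g (r' + (M - r)) ≤ (Fn r' * ‖G r'‖) * (1 / (K : ℝ) ^ (U + 6)) := by
        intro r' hr'
        rw [mem_filter] at hr'
        rw [hAf' r']
        apply mul_le_mul_of_nonneg_left _ (mul_nonneg (hFn0 _) (norm_nonneg _))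
        rw [hgt, if_pos]
        have hmod : (F * (r' + (M - r))) % M = s r r' := by rw [← hss, mul_add]
        rw [hmod]
        have hnb := hr'.2
        unfold Pool.Agent.W93.DG.Bad at hnb
        by_contra hcon
        push Not at hcon
        have h4 := h3 K (by omega)
        have hbound : ne b 0 K (s r r') * R ≤ 2 * hh b A₁ K := by
          have a1 : ne b 0 K (s r r') * R ≤ D * (Nat.log b K + 1) * R := Nat.mul_le_mul_right _ hcon.le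
          refine a1.trans ?_
          unfold hh
          have a2 : D * R ≤ A₁ := hUA
          calc D * (Nat.log b K + 1) * R = (D * R) * (Nat.log b K + 1) := by ring
            _ ≤ A₁ * (Nat.log b K + 1) := Nat.mul_le_mul_right _ a2
            _ ≤ 4 * (A₁ * (Nat.log b K + 1)) := by omega
            _ = 2 * (2 * A₁ * (Nat.log b K + 1)) := by ring
        have hm2 : 2 * (K / (16 * b) / 8) ≤ K := by
          have a1 : K / (16 * b) / 8 * 8 ≤ K / (16 * b) := Nat.div_mul_le_self _ _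
          have a2 : K / (16 * b) ≤ K := Nat.div_le_self _ _
          omega
        apply hnb
        refine ⟨?_, ?_, ?_⟩
        · have a1 := ne_window b (K - 1 - hh b A₁ K) (hh b A₁ K) 0 K (s r r') (by omega) (by omega)
          have a2 := Nat.mul_le_mul_right R a1
          omega
        · have a1 := ne_window b 1 (hh b A₁ K) 0 K (s r r') (by omega) (by omega)
          have a2 := Nat.mul_le_mul_right R a1
          omega
        · have a1 := ne_window b (K / (16 * b) / 8) (K - 2 * (K / (16 * b) / 8)) 0 K (s r r') (by omega) (by omega)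
          have a2 := Nat.mul_le_mul_right R a1
          omega
      refine (sum_le_sum e1).trans ?_
      rw [← sum_mul, mul_comm]
      apply mul_le_mul_of_nonneg_left _ (by positivity)
      rw [hTd]
      exact sum_le_sum_of_subset_of_nonneg (filter_subset _ _) fun _ _ _ => mul_nonneg (hFn0 _) (norm_nonneg _)
  have hsum2 : ∑ r ∈ range M, ‖Af r‖ * ∑ r' ∈ range M, ‖Af r'‖ * g (r' + (M - r)) ≤
      T * (Y / (K : ℝ) ^ (U + 6) + 1 / (K : ℝ) ^ (U + 6) * T) := by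
    have : ∀ r ∈ range M, ‖Af r‖ * ∑ r' ∈ range M, ‖Af r'‖ * g (r' + (M - r)) ≤
        (Fn r * ‖G r‖) * (Y / (K : ℝ) ^ (U + 6) + 1 / (K : ℝ) ^ (U + 6) * T) := fun r hr => by
      rw [hAf' r]
      exact mul_le_mul_of_nonneg_left (hrow r hr) (mul_nonneg (hFn0 _) (norm_nonneg _))
    refine (sum_le_sum this).trans (le_of_eq ?_)
    rw [← sum_mul, hTd]
  refine hsum2.trans ?_
  rw [← hY]
  exact var_num2 T Y 1 K U (by linarith) hY0 hT0 zero_le_one hT' (hk4.trans (by exact_mod_cast (by omega : k4 ≤ K)))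

/-- the second moment of the correlations -/
theorem law_corr (b F : ℕ) (hb : 2 ≤ b) (R U D A₁ : ℕ) (hUA : D * R ≤ A₁) : ∃ K₀ : ℕ, ∀ K : ℕ, K₀ ≤ K →
    ∀ f : ℕ → ℂ, UF b F R A₁ K (2 * (U + 6)) f →
    ∀ (ι : Type) (Ω : Finset ι) (p : ι → ℝ) (Y : ι → ℤ), Law b F D (U + 6) K Ω p Y →
    ∀ N : ℕ, (∀ ω ∈ Ω, -((b ^ K : ℕ) : ℤ) < Y ω ∧ (N : ℤ) + Y ω ≤ ((b ^ K : ℕ) : ℤ)) → N ≤ b ^ K →
    ∀ (g : ℕ → ℂ) (Fb : ℝ), 0 ≤ Fb → (∀ n ∈ Icc 1 N, ‖g n‖ ≤ Fb) →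
    ∑ ω ∈ Ω, p ω * ‖∑ n ∈ Icc 1 N, g n * exI f ((n : ℤ) + Y ω)‖ ^ 2 ≤ (Fb * ((b ^ K : ℕ) : ℝ)) ^ 2 / (K : ℝ) ^ U := by
  classical
  obtain ⟨K₀, h0⟩ := law_var b F hb R U D A₁ hUA
  refine ⟨K₀ + 1, fun K hk f hf ι Ω p Y hlaw N hY hNX g Fb hFb0 hFb => ?_⟩
  have hbn : 0 < b := by omega
  obtain ⟨g', hg'⟩ : ∃ g' : ℕ → ℂ, g' = fun n => if n ≤ N then g n else 0 := ⟨_, rfl⟩
  have hg0 : ∀ n, N < n → g' n = 0 := by
    intro n hn
    rw [hg']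
    simp only
    rw [if_neg (by omega)]
  have hg1 : ∀ n, n ≤ N → g' n = g n := by
    intro n hn
    rw [hg']
    simp only
    rw [if_pos hn]
  have h1 := h0 K (by omega) f hf ι Ω p Y hlaw (fun n => (starRingEnd ℂ) (g' n)) Fb hFb0 (by
    intro n hn
    rw [RCLike.norm_conj]
    rcases Nat.lt_or_ge N n with h | h
    · rw [hg0 n h, norm_zero]; exact hFb0
    · rw [hg1 n h]; exact hFb n (mem_Icc.2 ⟨(mem_Icc.1 hn).1, h⟩))
    (fun r => (starRingEnd ℂ) (FC (fun n => (starRingEnd ℂ) (g' n)) (b ^ K) (b ^ (K + 1)) r) * FC f (b ^ K) (b ^ (K + 1)) r) (by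
      intro r
      rw [norm_mul, RCLike.norm_conj])
  have hX1 : 1 ≤ b ^ K := Nat.pow_pos hbn
  have hM0 : (0 : ℝ) < ((b ^ (K + 1) : ℕ) : ℝ) := by exact_mod_cast Nat.pow_pos hbn
  have h2 : ∀ ω ∈ Ω, p ω * ‖EE (fun r => (starRingEnd ℂ) (FC (fun n => (starRingEnd ℂ) (g' n)) (b ^ K) (b ^ (K + 1)) r) *
      FC f (b ^ K) (b ^ (K + 1)) r) (b ^ (K + 1)) (Y ω)‖ ^ 2 =
      ((b ^ (K + 1) : ℕ) : ℝ) ^ 2 * (p ω * ‖∑ n ∈ Icc 1 N, g n * exI f ((n : ℤ) + Y ω)‖ ^ 2) := by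
    intro ω hω
    have hMX : 2 * b ^ K ≤ b ^ (K + 1) := by
      rw [pow_succ, mul_comm]
      exact Nat.mul_le_mul_left _ hb
    have h3 := EE_corrC g' f (b ^ K) (b ^ (K + 1)) N hX1 hMX hNX hg0 (Y ω) (hY ω hω).1 (hY ω hω).2
    rw [h3, norm_mul, Complex.norm_natCast]
    have h4 : ∑ n ∈ Icc 1 N, g' n * (if 1 ≤ (n : ℤ) + Y ω then f ((n : ℤ) + Y ω).toNat else 0) =
        ∑ n ∈ Icc 1 N, g n * exI f ((n : ℤ) + Y ω) := by
      apply sum_congr rfl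
      intro n hn
      rw [hg1 n (mem_Icc.1 hn).2]
      rfl
    rw [h4]
    ring
  rw [sum_congr rfl h2, ← mul_sum] at h1
  have h6 : ((b ^ (K + 1) : ℕ) : ℝ) ^ 2 * ∑ ω ∈ Ω, p ω * ‖∑ n ∈ Icc 1 N, g n * exI f ((n : ℤ) + Y ω)‖ ^ 2 ≤
      ((b ^ (K + 1) : ℕ) : ℝ) ^ 2 * ((Fb * ((b ^ K : ℕ) : ℝ)) ^ 2 / (K : ℝ) ^ U) := by
    refine h1.trans (le_of_eq ?_)
    ring
  exact le_of_mul_le_mul_left h6 (by positivity)

end Pool.Agent.H913.PT
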