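import Mathlib

set_option autoImplicit false

/-! From windows of a fixed length to windows of the length `(log x) ^ s` at `x`. -/

namespace Pool.Agent.H913.PT
open Finset

/-- the number of the primes in `(n, n + y]` -/
def pin (n y : ℕ) : ℕ := ((Ioc n (n + y)).filter Nat.Prime).card

/-- `R_h(x)` for `h(x) = (log x) ^ s` -/
noncomputable def rat (s x : ℝ) : ℝ :=
  Real.log x / Real.log x ^ s * ((Nat.primeCounting ⌊x + Real.log x ^ s⌋₊ : ℝ) - Nat.primeCounting ⌊x⌋₊)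

lemma pc_sub (n y : ℕ) : ((Nat.primeCounting (n + y) : ℝ) - Nat.primeCounting n) = pin n y := by
  have h : Nat.primeCounting (n + y) = Nat.primeCounting n + pin n y := by
    unfold pin Nat.primeCounting Nat.primeCounting'
    rw [Nat.count_eq_card_filter_range, Nat.count_eq_card_filter_range, ← card_union_of_disjoint]
    · congr 1
      ext i
      simp only [mem_union, mem_filter, mem_range, mem_Ioc]
      constructor
      · rintro ⟨h1, h2⟩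
        rcases Nat.lt_or_ge i (n + 1) with h | h
        · exact Or.inl ⟨h, h2⟩
        · exact Or.inr ⟨⟨by omega, by omega⟩, h2⟩
      · rintro (⟨h1, h2⟩ | ⟨h1, h2⟩)
        · exact ⟨by omega, h2⟩
        · exact ⟨by omega, h2⟩
    · rw [disjoint_left]
      intro i h1 h2
      simp only [mem_filter, mem_range, mem_Ioc] at h1 h2
      omega
  rw [h]
  push_cast
  ring

lemma pin_mono (n : ℕ) {y y' : ℕ} (h : y ≤ y') : pin n y ≤ pin n y' := by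
  unfold pin
  exact card_le_card (filter_subset_filter _ (Ioc_subset_Ioc_right (by omega)))

lemma pin_le (n y : ℕ) : pin n y ≤ y := by
  unfold pin
  refine (card_filter_le _ _).trans (le_of_eq ?_)
  rw [Nat.card_Ioc]
  omega

lemma rat_eq (s : ℝ) (x : ℕ) (hx : 2 ≤ x) :
    rat s (x : ℝ) = Real.log x / Real.log x ^ s * pin x ⌊Real.log x ^ s⌋₊ := by
  have hl : 0 < Real.log (x : ℝ) := Real.log_pos (by exact_mod_cast hx)
  unfold rat
  rw [Nat.floor_natCast, add_comm (x : ℝ), Nat.floor_add_natCast (Real.rpow_pos_of_pos hl s).le, add_comm _ x, pc_sub]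

lemma rat_nonneg (s : ℝ) (x : ℕ) (hx : 2 ≤ x) : 0 ≤ rat s (x : ℝ) := by
  have hl : 0 < Real.log (x : ℝ) := Real.log_pos (by exact_mod_cast hx)
  rw [rat_eq s x hx]
  have := Real.rpow_pos_of_pos hl s
  positivity

lemma rat_le (s : ℝ) (x : ℕ) (hx : 2 ≤ x) : rat s (x : ℝ) ≤ Real.log x := by
  have hl : 0 < Real.log (x : ℝ) := Real.log_pos (by exact_mod_cast hx)
  rw [rat_eq s x hx]
  have h := Real.rpow_pos_of_pos hl s
  have h1 : ((pin x ⌊Real.log x ^ s⌋₊ : ℕ) : ℝ) ≤ Real.log x ^ s :=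
    (Nat.cast_le.2 (pin_le _ _)).trans (Nat.floor_le h.le)
  calc Real.log x / Real.log x ^ s * pin x ⌊Real.log x ^ s⌋₊ ≤ Real.log x / Real.log x ^ s * Real.log x ^ s :=
        mul_le_mul_of_nonneg_left h1 (by positivity)
    _ = Real.log x := div_mul_cancel₀ _ h.ne'

lemma rat_up (s L δ : ℝ) (hs : 0 ≤ s) (hL : 0 < L) (hδ : 0 < δ) (hδ1 : δ < 1) (x : ℕ) (hx : 2 ≤ x)
    (h1 : (1 - δ) * L ≤ Real.log x) (h2 : Real.log x ≤ (1 + δ) * L) :
    rat s (x : ℝ) ≤ ((1 + δ) * L) / ((1 - δ) ^ s * L ^ s) * pin x ⌊(1 + δ) ^ s * L ^ s⌋₊ := by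
  have hl : 0 < Real.log (x : ℝ) := Real.log_pos (by exact_mod_cast hx)
  have e1 : (1 - δ) ^ s * L ^ s ≤ Real.log x ^ s := by
    rw [← Real.mul_rpow (by linarith) hL.le]
    exact Real.rpow_le_rpow (mul_nonneg (by linarith) hL.le) h1 hs
  have e2 : Real.log x ^ s ≤ (1 + δ) ^ s * L ^ s := by
    rw [← Real.mul_rpow (by linarith) hL.le]
    exact Real.rpow_le_rpow hl.le h2 hs
  have e3 : 0 < (1 - δ) ^ s * L ^ s := mul_pos (Real.rpow_pos_of_pos (by linarith) s) (Real.rpow_pos_of_pos hL s)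
  rw [rat_eq s x hx]
  apply mul_le_mul
  · exact div_le_div₀ (by positivity) h2 e3 e1
  · exact Nat.cast_le.2 (pin_mono x (Nat.floor_mono e2))
  · exact Nat.cast_nonneg _
  · positivity

lemma rat_low (s L δ : ℝ) (hs : 0 ≤ s) (hL : 0 < L) (hδ : 0 < δ) (hδ1 : δ < 1) (x : ℕ) (hx : 2 ≤ x)
    (h1 : (1 - δ) * L ≤ Real.log x) (h2 : Real.log x ≤ (1 + δ) * L) :
    ((1 - δ) * L) / ((1 + δ) ^ s * L ^ s) * pin x ⌊(1 - δ) ^ s * L ^ s⌋₊ ≤ rat s (x : ℝ) := by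
  have hl : 0 < Real.log (x : ℝ) := Real.log_pos (by exact_mod_cast hx)
  have e1 : (1 - δ) ^ s * L ^ s ≤ Real.log x ^ s := by
    rw [← Real.mul_rpow (by linarith) hL.le]
    exact Real.rpow_le_rpow (mul_nonneg (by linarith) hL.le) h1 hs
  have e2 : Real.log x ^ s ≤ (1 + δ) ^ s * L ^ s := by
    rw [← Real.mul_rpow (by linarith) hL.le]
    exact Real.rpow_le_rpow hl.le h2 hs
  have e3 := Real.rpow_pos_of_pos hl s
  rw [rat_eq s x hx]
  apply mul_le_mul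
  · exact div_le_div₀ hl.le h1 e3 e2
  · exact Nat.cast_le.2 (pin_mono x (Nat.floor_mono e1))
  · exact Nat.cast_nonneg _
  · positivity

/-- the passage to windows of the length `(log x) ^ s` -/
theorem reg (A sm : Finset ℕ) (n S : ℕ) (L δ ε s : ℝ) (hε : 0 < ε) (hε1 : ε ≤ 1 / 4) (hL : 1 ≤ L) (hδ : 0 < δ) (hδ1 : δ < 1)
    (hs : 0 ≤ s) (hsS : s ≤ S)
    (h1 : (1 + δ) ^ (S + 1) ≤ (1 + ε) * (1 - δ) ^ S) (h2 : (1 - ε) * (1 + δ) ^ S ≤ (1 - δ) ^ (S + 1))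
    (hsm : sm ⊆ A) (hsmc : (sm.card : ℝ) * (2 * L) ≤ ε * A.card) (h2x : ∀ a ∈ A, 2 ≤ a + n)
    (hup : ∀ a ∈ A, Real.log ((a + n : ℕ) : ℝ) ≤ (1 + δ) * L)
    (hlow : ∀ a ∈ A, a ∉ sm → (1 - δ) * L ≤ Real.log ((a + n : ℕ) : ℝ))
    (y₁ y₂ : ℕ) (hy₁ : y₁ = ⌊(1 - δ) ^ s * L ^ s⌋₊) (hy₂ : y₂ = ⌊(1 + δ) ^ s * L ^ s⌋₊)
    (hy₁' : (1 - ε) * ((1 - δ) ^ s * L ^ s) ≤ y₁)
    (G1 : |(∑ a ∈ A, (pin (a + n) y₁ : ℝ)) * L - A.card * y₁| ≤ ε * (A.card * y₁))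
    (G2 : |(∑ a ∈ A, (pin (a + n) y₂ : ℝ)) * L - A.card * y₂| ≤ ε * (A.card * y₂))
    (F : Finset ℕ) (hF : F ⊆ A) (hF1 : ∀ a ∈ F, ε / 2 * y₁ ≤ (pin (a + n) y₁ : ℝ) * L) (hF2 : (1 / 4 - ε) * A.card ≤ (F.card : ℝ)) :
    |∑ a ∈ A, rat s ((a + n : ℕ) : ℝ) - A.card| ≤ (8 * ε) * A.card ∧
    ∃ F' : Finset ℕ, F' ⊆ A ∧ (∀ a ∈ F', ε / 4 ≤ rat s ((a + n : ℕ) : ℝ)) ∧ (1 / 4 - 8 * ε) * A.card ≤ (F'.card : ℝ) := by
  classical
  obtain ⟨c, hc⟩ : ∃ c : ℝ, c = A.card := ⟨_, rfl⟩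
  have hc0 : 0 ≤ c := by rw [hc]; exact Nat.cast_nonneg _
  rw [← hc] at hsmc G1 G2 hF2 ⊢
  have hL0 : 0 < L := by linarith
  obtain ⟨T, hT⟩ : ∃ T : ℝ, T = L ^ s := ⟨_, rfl⟩
  have hT0 : 0 < T := by rw [hT]; exact Real.rpow_pos_of_pos hL0 s
  obtain ⟨p, hp⟩ : ∃ p : ℝ, p = (1 + δ) ^ s := ⟨_, rfl⟩
  obtain ⟨q, hq⟩ : ∃ q : ℝ, q = (1 - δ) ^ s := ⟨_, rfl⟩
  have hp0 : 0 < p := by rw [hp]; exact Real.rpow_pos_of_pos (by linarith) s
  have hq0 : 0 < q := by rw [hq]; exact Real.rpow_pos_of_pos (by linarith) s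
  have hpS : p ≤ (1 + δ) ^ S := by
    rw [hp, ← Real.rpow_natCast]
    exact Real.rpow_le_rpow_of_exponent_le (by linarith) hsS
  have hqS : (1 - δ) ^ S ≤ q := by
    rw [hq, ← Real.rpow_natCast]
    exact Real.rpow_le_rpow_of_exponent_ge (by linarith) (by linarith) hsS
  have k1 : (1 + δ) * p ≤ (1 + ε) * q := by
    calc (1 + δ) * p ≤ (1 + δ) * (1 + δ) ^ S := mul_le_mul_of_nonneg_left hpS (by linarith)
      _ = (1 + δ) ^ (S + 1) := by rw [pow_succ]; ring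
      _ ≤ (1 + ε) * (1 - δ) ^ S := h1
      _ ≤ (1 + ε) * q := mul_le_mul_of_nonneg_left hqS (by linarith)
  have k2 : (1 - ε) * p ≤ (1 - δ) * q := by
    calc (1 - ε) * p ≤ (1 - ε) * (1 + δ) ^ S := mul_le_mul_of_nonneg_left hpS (by linarith)
      _ ≤ (1 - δ) ^ (S + 1) := h2
      _ = (1 - δ) * (1 - δ) ^ S := by rw [pow_succ]; ring
      _ ≤ (1 - δ) * q := mul_le_mul_of_nonneg_left hqS (by linarith)
  rw [← hT, ← hq] at hy₁ hy₁'
  rw [← hT, ← hp] at hy₂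
  have hy₂' : (y₂ : ℝ) ≤ p * T := by rw [hy₂]; exact Nat.floor_le (by positivity)
  obtain ⟨κ₁, hκ₁⟩ : ∃ κ₁ : ℝ, κ₁ = (1 - δ) / (p * T) := ⟨_, rfl⟩
  obtain ⟨κ₂, hκ₂⟩ : ∃ κ₂ : ℝ, κ₂ = (1 + δ) / (q * T) := ⟨_, rfl⟩
  have hκ₁0 : 0 ≤ κ₁ := by rw [hκ₁]; exact div_nonneg (by linarith) (by positivity)
  have hκ₂0 : 0 ≤ κ₂ := by rw [hκ₂]; exact div_nonneg (by linarith) (by positivity)
  have hup' : ∀ a ∈ A, a ∉ sm → rat s ((a + n : ℕ) : ℝ) ≤ κ₂ * ((pin (a + n) y₂ : ℝ) * L) := by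
    intro a ha hna
    have e := rat_up s L δ hs hL0 hδ hδ1 (a + n) (h2x a ha) (hlow a ha hna) (hup a ha)
    rw [← hT, ← hp, ← hq, ← hy₂] at e
    refine e.trans (le_of_eq ?_)
    rw [hκ₂]
    ring
  have hlow' : ∀ a ∈ A, a ∉ sm → κ₁ * ((pin (a + n) y₁ : ℝ) * L) ≤ rat s ((a + n : ℕ) : ℝ) := by
    intro a ha hna
    have e := rat_low s L δ hs hL0 hδ hδ1 (a + n) (h2x a ha) (hlow a ha hna) (hup a ha)
    rw [← hT, ← hp, ← hq, ← hy₁] at e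
    refine le_trans (le_of_eq ?_) e
    rw [hκ₁]
    ring
  -- the numbers
  have n1 : κ₂ * ((1 + ε) * (c * y₂)) ≤ (1 + ε) * (1 + ε) * c := by
    rw [hκ₂, div_mul_eq_mul_div, div_le_iff₀ (by positivity)]
    have e1 : c * y₂ ≤ c * (p * T) := mul_le_mul_of_nonneg_left hy₂' hc0
    calc (1 + δ) * ((1 + ε) * (c * y₂)) ≤ (1 + δ) * ((1 + ε) * (c * (p * T))) := by gcongr
      _ = ((1 + δ) * p) * ((1 + ε) * c * T) := by ring
      _ ≤ ((1 + ε) * q) * ((1 + ε) * c * T) := mul_le_mul_of_nonneg_right k1 (by positivity)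
      _ = _ := by ring
  have n2 : (1 - ε) * (1 - ε) ≤ κ₁ * y₁ := by
    rw [hκ₁, div_mul_eq_mul_div, le_div_iff₀ (by positivity)]
    calc (1 - ε) * (1 - ε) * (p * T) = ((1 - ε) * p) * ((1 - ε) * T) := by ring
      _ ≤ ((1 - δ) * q) * ((1 - ε) * T) := mul_le_mul_of_nonneg_right k2 (mul_nonneg (by linarith) hT0.le)
      _ = (1 - δ) * ((1 - ε) * (q * T)) := by ring
      _ ≤ (1 - δ) * y₁ := mul_le_mul_of_nonneg_left hy₁' (by linarith)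
  have hn0 : ∀ a ∈ A, 0 ≤ rat s ((a + n : ℕ) : ℝ) := fun a ha => rat_nonneg s _ (h2x a ha)
  have hsplit : ∑ a ∈ A, rat s ((a + n : ℕ) : ℝ) = ∑ a ∈ A \ sm, rat s ((a + n : ℕ) : ℝ) + ∑ a ∈ sm, rat s ((a + n : ℕ) : ℝ) :=
    (sum_sdiff hsm).symm
  have hsmall : ∑ a ∈ sm, rat s ((a + n : ℕ) : ℝ) ≤ ε * c := by
    refine le_trans ?_ hsmc
    have : ∀ a ∈ sm, rat s ((a + n : ℕ) : ℝ) ≤ 2 * L := by
      intro a ha
      refine (rat_le s _ (h2x a (hsm ha))).trans ((hup a (hsm ha)).trans ?_)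
      nlinarith
    refine (sum_le_sum this).trans (le_of_eq ?_)
    rw [sum_const, nsmul_eq_mul]
  have hsmcard : (sm.card : ℝ) ≤ ε * c := by
    refine le_trans ?_ hsmc
    have : (0 : ℝ) ≤ sm.card := Nat.cast_nonneg _
    nlinarith
  have hpin0 : ∀ a y : ℕ, (0 : ℝ) ≤ pin (a + n) y := fun a y => Nat.cast_nonneg _
  rw [abs_le] at G1 G2
  constructor
  · rw [abs_le]
    constructor
    · have e1 : ∑ a ∈ A \ sm, κ₁ * ((pin (a + n) y₁ : ℝ) * L) ≤ ∑ a ∈ A \ sm, rat s ((a + n : ℕ) : ℝ) := by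
        apply sum_le_sum
        intro a ha
        rw [mem_sdiff] at ha
        exact hlow' a ha.1 ha.2
      have e2 : (∑ a ∈ A, (pin (a + n) y₁ : ℝ)) = ∑ a ∈ A \ sm, (pin (a + n) y₁ : ℝ) + ∑ a ∈ sm, (pin (a + n) y₁ : ℝ) :=
        (sum_sdiff hsm).symm
      have e3 : (∑ a ∈ sm, (pin (a + n) y₁ : ℝ)) * L ≤ ε * (c * y₁) := by
        have e4 : ∑ a ∈ sm, (pin (a + n) y₁ : ℝ) ≤ sm.card * y₁ := by
          refine (sum_le_sum (fun a _ => Nat.cast_le.2 (pin_le (a + n) y₁))).trans (le_of_eq ?_)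
          rw [sum_const, nsmul_eq_mul]
        calc (∑ a ∈ sm, (pin (a + n) y₁ : ℝ)) * L ≤ (sm.card * y₁) * L := mul_le_mul_of_nonneg_right e4 hL0.le
          _ = ((sm.card : ℝ) * L) * y₁ := by ring
          _ ≤ ((sm.card : ℝ) * (2 * L)) * y₁ := by
              apply mul_le_mul_of_nonneg_right _ (Nat.cast_nonneg _)
              apply mul_le_mul_of_nonneg_left _ (Nat.cast_nonneg _)
              linarith
          _ ≤ (ε * c) * y₁ := mul_le_mul_of_nonneg_right hsmc (Nat.cast_nonneg _)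
          _ = _ := by ring
      have e5 : (1 - 2 * ε) * (c * y₁) ≤ (∑ a ∈ A \ sm, (pin (a + n) y₁ : ℝ)) * L := by
        have := G1.1
        rw [e2, add_mul] at this
        linarith
      have e6 : ∑ a ∈ A \ sm, κ₁ * ((pin (a + n) y₁ : ℝ) * L) = κ₁ * ((∑ a ∈ A \ sm, (pin (a + n) y₁ : ℝ)) * L) := by
        rw [sum_mul, mul_sum]
      rw [e6] at e1
      have e7 : κ₁ * ((1 - 2 * ε) * (c * y₁)) ≤ κ₁ * ((∑ a ∈ A \ sm, (pin (a + n) y₁ : ℝ)) * L) :=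
        mul_le_mul_of_nonneg_left e5 hκ₁0
      have e8 : (1 - 2 * ε) * c * ((1 - ε) * (1 - ε)) ≤ (1 - 2 * ε) * c * (κ₁ * y₁) :=
        mul_le_mul_of_nonneg_left n2 (mul_nonneg (by linarith) hc0)
      have e9 : 0 ≤ ∑ a ∈ sm, rat s ((a + n : ℕ) : ℝ) := sum_nonneg fun a ha => hn0 a (hsm ha)
      have e10 : (1 - 8 * ε) * c ≤ (1 - 2 * ε) * c * ((1 - ε) * (1 - ε)) := by
        have : (1 - 8 * ε) ≤ (1 - 2 * ε) * ((1 - ε) * (1 - ε)) := by nlinarith [mul_pos hε hε]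
        have := mul_le_mul_of_nonneg_right this hc0
        linarith
      rw [hsplit]
      nlinarith
    · have e1 : ∑ a ∈ A \ sm, rat s ((a + n : ℕ) : ℝ) ≤ ∑ a ∈ A \ sm, κ₂ * ((pin (a + n) y₂ : ℝ) * L) := by
        apply sum_le_sum
        intro a ha
        rw [mem_sdiff] at ha
        exact hup' a ha.1 ha.2
      have e2 : ∑ a ∈ A \ sm, κ₂ * ((pin (a + n) y₂ : ℝ) * L) ≤ ∑ a ∈ A, κ₂ * ((pin (a + n) y₂ : ℝ) * L) :=
        sum_le_sum_of_subset_of_nonneg sdiff_subset fun a _ _ => mul_nonneg hκ₂0 (mul_nonneg (hpin0 a y₂) hL0.le)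
      have e3 : ∑ a ∈ A, κ₂ * ((pin (a + n) y₂ : ℝ) * L) = κ₂ * ((∑ a ∈ A, (pin (a + n) y₂ : ℝ)) * L) := by
        rw [sum_mul, mul_sum]
      have e4 : κ₂ * ((∑ a ∈ A, (pin (a + n) y₂ : ℝ)) * L) ≤ κ₂ * ((1 + ε) * (c * y₂)) :=
        mul_le_mul_of_nonneg_left (by linarith [G2.2]) hκ₂0
      have e5 : (1 + ε) * (1 + ε) * c ≤ (1 + 3 * ε) * c := mul_le_mul_of_nonneg_right (by nlinarith) hc0
      have e6 : 0 ≤ ε * c := by positivity
      rw [hsplit]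
      nlinarith
  · refine ⟨F \ sm, sdiff_subset.trans hF, ?_, ?_⟩
    · intro a ha
      rw [mem_sdiff] at ha
      refine le_trans ?_ (hlow' a (hF ha.1) ha.2)
      have e1 := mul_le_mul_of_nonneg_left (hF1 a ha.1) hκ₁0
      refine le_trans ?_ e1
      have e2 : ε / 2 * ((1 - ε) * (1 - ε)) ≤ ε / 2 * (κ₁ * y₁) := mul_le_mul_of_nonneg_left n2 (by positivity)
      have e3 : (1 : ℝ) / 2 ≤ (1 - ε) * (1 - ε) := by nlinarith
      have e4 : ε / 2 * (1 / 2) ≤ ε / 2 * ((1 - ε) * (1 - ε)) := mul_le_mul_of_nonneg_left e3 (by positivity)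
      linarith
    · have e1 : (F.card : ℝ) - sm.card ≤ ((F \ sm).card : ℝ) := by
        have : F.card ≤ (F \ sm).card + sm.card := by
          have := le_card_sdiff sm F
          omega
        have : (F.card : ℝ) ≤ ((F \ sm).card : ℝ) + sm.card := by exact_mod_cast this
        linarith
      have e6 : 0 ≤ ε * c := by positivity
      nlinarith

end Pool.Agent.H913.PT
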